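import Mathlib
import Pool.Agent.TH353.FS.PatternsBC

/-!
Infinitely many `n` with `n + h₁, n + h₂, n + h₃, n + h₄` all sums of two squares, for wide classes
of four-element sets (the first case `k = 4` of the problem).
-/

set_option autoImplicit false

namespace Pool.Agent.Results.MP_0ea763_nt.FourShifts

open Pool.Agent.TH353.FS

/-- Four shifts `c + D gᵢ`, where `D > 0` is a sum of two squares, `g₁, g₂, g₃` do not represent
all classes modulo `3` and satisfy one of three congruence patterns modulo powers of two, and `g₄`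
is arbitrary: there are infinitely many integers `n` such that all four numbers `n + (c + D gᵢ)`
are sums of two squares. -/
theorem result (D c g1 g2 g3 g4 : ℤ) (hD0 : 0 < D) (hD : ∃ a b : ℤ, D = a ^ 2 + b ^ 2)
    (hc : ∃ r : ℤ, ¬ (3 : ℤ) ∣ g1 - r ∧ ¬ (3 : ℤ) ∣ g2 - r ∧ ¬ (3 : ℤ) ∣ g3 - r)
    (hg : ((16 : ℤ) ∣ g2 - g1 ∧ (16 : ℤ) ∣ g3 - g1) ∨
      ((8 : ℤ) ∣ g3 - g2 ∧ (4 : ℤ) ∣ g1 - g2 + 1) ∨
      ((16 : ℤ) ∣ g2 - g1 ∧ g2 - g1 ≠ 16 ∧ g2 - g1 ≠ -16 ∧ (4 : ℤ) ∣ g3 - g1 - 1)) :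
    {n : ℤ | (∃ a b : ℤ, n + (c + D * g1) = a ^ 2 + b ^ 2) ∧
      (∃ a b : ℤ, n + (c + D * g2) = a ^ 2 + b ^ 2) ∧
      (∃ a b : ℤ, n + (c + D * g3) = a ^ 2 + b ^ 2) ∧
      (∃ a b : ℤ, n + (c + D * g4) = a ^ 2 + b ^ 2)}.Infinite := by
  have hBig : Big g1 g2 g3 g4 := by
    rcases hg with ⟨h1, h2⟩ | ⟨h1, h2⟩ | ⟨h1, h2, h3, h4⟩
    · exact patternA' h1 h2 hc
    · obtain ⟨β, hβ⟩ := h1
      obtain ⟨γ, hγ⟩ := h2
      exact patternB (β := β) (γ := γ) (by linarith) (by linarith) hc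
    · obtain ⟨α, hα⟩ := h1
      obtain ⟨β, hβ⟩ := h4
      exact patternC (α := α) (β := β) (by linarith) (by linarith)
        (by rintro rfl; exact h2 (by linarith)) (by rintro rfl; exact h3 (by linarith)) hc
  obtain ⟨a, b, hab⟩ := hD
  have mulD : ∀ z : ℤ, z ∈ Sq2 → ∃ x y : ℤ, D * z = x ^ 2 + y ^ 2 := by
    rintro z ⟨x, y, rfl⟩
    exact ⟨a * x - b * y, a * y + b * x, by rw [hab]; ring⟩
  apply Set.infinite_of_forall_exists_gt
  intro B
  obtain ⟨m, hm, m1, m2, m3, m4⟩ := hBig (|B| + |c|)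
  refine ⟨D * m - c, ⟨?_, ?_, ?_, ?_⟩, ?_⟩
  · obtain ⟨x, y, h⟩ := mulD _ m1
    exact ⟨x, y, by rw [← h]; ring⟩
  · obtain ⟨x, y, h⟩ := mulD _ m2
    exact ⟨x, y, by rw [← h]; ring⟩
  · obtain ⟨x, y, h⟩ := mulD _ m3
    exact ⟨x, y, by rw [← h]; ring⟩
  · obtain ⟨x, y, h⟩ := mulD _ m4
    exact ⟨x, y, by rw [← h]; ring⟩
  · have h0 : 0 ≤ m := by
      have := abs_nonneg B
      have := abs_nonneg c
      linarith
    have h1 : m ≤ D * m := le_mul_of_one_le_left h0 (by linarith)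
    have := le_abs_self B
    have := le_abs_self c
    linarith

end Pool.Agent.Results.MP_0ea763_nt.FourShifts
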