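import Mathlib

set_option autoImplicit false

/-!
Tuples of sums of two squares, one of the shifts being arbitrary.

If `N h + T` is a square for all `h` in a finite set `H`, where all prime factors of `N` are
`1 mod 4`, we look for `n = (X^2 + T) / N`.  Then `N (n + h) = X^2 + s_h^2` for `h` in `H`, and
`N (n + y) = X^2 + c` with `c = T + N y`.  With `2 X = v^2 - c + 1` one has
`X^2 + c = (X - 1)^2 + v^2`, and `N` divides `X^2 + T` as soon as `v = s + j` modulo `N`, where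
`j^2 = -1` and `s^2 = T` modulo `N`.
-/

namespace Pool.Agent.Results.MP_0ea763_nt.OneArbitraryShift

/-- `-1` is a square modulo a product of primes `1 mod 4` -/
lemma isSquare_neg_one (N : ℕ) (h : ∀ p : ℕ, p.Prime → p ∣ N → p % 4 = 1) :
    IsSquare (-1 : ZMod N) := by
  induction N using Nat.recOnPosPrimePosCoprime with
  | prime_pow p n hp hn =>
    have : Fact p.Prime := ⟨hp⟩
    have h4 : p % 4 = 1 := h p hp (dvd_pow_self p hn.ne')
    obtain ⟨z, hz⟩ := (ZMod.exists_sq_eq_neg_one_iff (p := p)).2 (by omega)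
    obtain ⟨j, rfl⟩ := ZMod.intCast_surjective z
    have h1 : ((p : ℕ) : ℤ) ∣ j ^ 2 - (-1) := by
      rw [← ZMod.intCast_zmod_eq_zero_iff_dvd]
      push_cast
      rw [pow_two, ← hz]
      ring
    obtain ⟨k, rfl⟩ : ∃ k, n = k + 1 := ⟨n - 1, by omega⟩
    have h2 := dvd_sub_pow_of_dvd_sub h1 k
    have hodd : Odd (p ^ k) := by
      refine Odd.pow ?_
      rw [Nat.odd_iff]; omega
    rw [hodd.neg_one_pow] at h2
    refine ⟨((j ^ p ^ k : ℤ) : ZMod (p ^ (k + 1))), ?_⟩
    have h3 : (((j ^ 2) ^ p ^ k - (-1) : ℤ) : ZMod (p ^ (k + 1))) = 0 := by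
      rw [ZMod.intCast_zmod_eq_zero_iff_dvd]
      push_cast
      exact h2
    have h4 : (j ^ 2) ^ p ^ k = j ^ p ^ k * j ^ p ^ k := by
      rw [← pow_mul, mul_comm 2, pow_mul, pow_two]
    rw [h4] at h3
    push_cast at h3 ⊢
    linear_combination -h3
  | zero => exact absurd (h 2 Nat.prime_two (dvd_zero 2)) (by norm_num)
  | one => exact ⟨0, Subsingleton.elim _ _⟩
  | coprime a b _ _ hab iha ihb =>
    exact ZMod.isSquare_neg_one_mul hab (iha fun p hp hd => h p hp (hd.mul_right b))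
      (ihb fun p hp hd => h p hp (hd.mul_left a))

/-- division by `N` -/
lemma quot {N : ℕ} (hN0 : N ≠ 0) (h : ∀ p : ℕ, p.Prime → p ∣ N → p % 4 = 1) {m u v : ℤ}
    (hm : (N : ℤ) * m = u ^ 2 + v ^ 2) : ∃ a b : ℤ, m = a ^ 2 + b ^ 2 := by
  have hNpos : (0 : ℤ) < N := by exact_mod_cast Nat.pos_of_ne_zero hN0
  have hm0 : 0 ≤ m := by
    by_contra hn
    push Not at hn
    have h1 := mul_neg_of_pos_of_neg hNpos hn
    nlinarith [sq_nonneg u, sq_nonneg v]
  obtain ⟨k, rfl⟩ := Int.eq_ofNat_of_zero_le hm0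
  have h1 : N * k = u.natAbs ^ 2 + v.natAbs ^ 2 := by
    zify
    rw [sq_abs, sq_abs]
    exact hm
  have h2 := Nat.eq_sq_add_sq_iff.1 ⟨_, _, h1⟩
  have h3 : ∃ x y : ℕ, k = x ^ 2 + y ^ 2 := by
    rw [Nat.eq_sq_add_sq_iff]
    intro q hq hq3
    have hqp : q.Prime := Nat.prime_of_mem_primeFactors hq
    have hqk : q ∣ k := Nat.dvd_of_mem_primeFactors hq
    have hk0 : k ≠ 0 := by
      rintro rfl
      simp at hq
    have : Fact q.Prime := ⟨hqp⟩
    have h4 := h2 q (Nat.mem_primeFactors.2 ⟨hqp, hqk.mul_left N, mul_ne_zero hN0 hk0⟩) hq3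
    rw [padicValNat.mul hN0 hk0, padicValNat.eq_zero_of_not_dvd, zero_add] at h4
    · exact h4
    · intro hd
      have := h q hqp hd
      omega
  obtain ⟨x, y, hxy⟩ := h3
  exact ⟨x, y, by rw [hxy]; push_cast; ring⟩

lemma crit (N : ℕ) (T : ℤ) (H : Finset ℤ) (hN : ∀ p : ℕ, p.Prime → p ∣ N → p % 4 = 1)
    (hne : H.Nonempty) (hH : ∀ x ∈ H, ∃ s : ℤ, (N : ℤ) * x + T = s ^ 2) (y : ℤ) :
    {n : ℤ | ∀ x ∈ insert y H, ∃ a b : ℤ, n + x = a ^ 2 + b ^ 2}.Infinite := by
  obtain ⟨x₁, hx₁⟩ := hne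
  have hN0 : N ≠ 0 := by
    rintro rfl
    have := hN 2 Nat.prime_two (dvd_zero 2)
    norm_num at this
  have hNpos : (0 : ℤ) < N := by exact_mod_cast Nat.pos_of_ne_zero hN0
  have hNodd : Odd N := by
    rw [← Nat.not_even_iff_odd]
    intro he
    have := hN 2 Nat.prime_two he.two_dvd
    norm_num at this
  have hNoddZ : Odd (N : ℤ) := by exact_mod_cast hNodd
  obtain ⟨z, hz⟩ := isSquare_neg_one N hN
  obtain ⟨j, rfl⟩ := ZMod.intCast_surjective z
  have hj : (N : ℤ) ∣ j ^ 2 + 1 := by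
    rw [← ZMod.intCast_zmod_eq_zero_iff_dvd]
    push_cast
    linear_combination -hz
  obtain ⟨r, hr⟩ := hj
  obtain ⟨s, hs⟩ := hH x₁ hx₁
  refine Set.infinite_of_forall_exists_gt fun B => ?_
  set c : ℤ := T + N * y with hc
  set M : ℤ := |c| + |T| + N * |B| + 3 with hM
  obtain ⟨t₀, ht₀⟩ : ∃ t₀ : ℤ, Odd ((s + j + N * t₀) ^ 2 - c) := by
    by_cases hodd : Odd ((s + j) ^ 2 - c)
    · exact ⟨0, by simpa using hodd⟩
    · refine ⟨1, ?_⟩
      rw [Int.not_odd_iff_even] at hodd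
      have : (s + j + N * 1) ^ 2 - c = ((s + j) ^ 2 - c) + (N * N + 2 * (N * (s + j))) := by ring
      rw [this]
      refine hodd.add_odd ?_
      exact (hNoddZ.mul hNoddZ).add_even (even_two_mul _)
  set K : ℤ := |M| + |s + j + N * t₀| with hK
  have hK0 : 0 ≤ K := by positivity
  set t : ℤ := t₀ + 2 * K with ht
  set v : ℤ := s + j + N * t with hv
  have hvM : M ≤ v := by
    have e : v = (s + j + N * t₀) + 2 * (N * K) := by rw [hv, ht]; ring
    have h1 : K ≤ N * K := by nlinarith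
    have h2 := neg_abs_le (s + j + N * t₀)
    have h3 := le_abs_self M
    have h4 := abs_nonneg (s + j + N * t₀)
    have h5 := abs_nonneg M
    rw [e]
    linarith
  have hvodd : Odd (v ^ 2 - c) := by
    have e : v ^ 2 - c = ((s + j + N * t₀) ^ 2 - c) +
        2 * (2 * N * K * (s + j + N * t₀) + 2 * N ^ 2 * K ^ 2) := by
      rw [hv, ht]; ring
    rw [e]
    exact ht₀.add_even (even_two_mul _)
  obtain ⟨k, hk⟩ := hvodd
  set X : ℤ := k + 1 with hX
  have hX2 : 2 * X = v ^ 2 - c + 1 := by rw [hX, hk]; ring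
  have hdvd : (N : ℤ) ∣ 4 * (X ^ 2 + T) := by
    refine ⟨4 * s ^ 2 * r + 4 * s * j * (2 * (s + j) * t + N * t ^ 2 + x₁ - y + r) +
      N * (2 * (s + j) * t + N * t ^ 2 + x₁ - y + r) ^ 2 - 4 * x₁, ?_⟩
    have hT : T = s ^ 2 - N * x₁ := by linarith
    have e1 : 2 * X = 2 * s * j + N * (2 * (s + j) * t + N * t ^ 2 + x₁ - y + r) := by
      rw [hX2, hv, hc, hT]
      linear_combination hr
    have e2 : 4 * (X ^ 2 + T) = (2 * X) ^ 2 + 4 * T := by ring
    rw [e2, e1, hT]
    linear_combination 4 * s ^ 2 * hr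
  have hcop : IsCoprime (N : ℤ) 4 := by
    have : Nat.Coprime N (2 ^ 2) := Nat.Coprime.pow_right 2 (Nat.coprime_two_right.2 hNodd)
    exact_mod_cast Nat.isCoprime_iff_coprime.2 this
  obtain ⟨n, hn⟩ := hcop.dvd_of_dvd_mul_left hdvd
  refine ⟨n, ?_, ?_⟩
  · intro x hx
    rcases Finset.mem_insert.1 hx with rfl | hx
    · refine quot hN0 hN (u := X - 1) (v := v) ?_
      have : c = T + N * x := hc
      linear_combination (-1 : ℤ) * hn + hX2 - this
    · obtain ⟨s', hs'⟩ := hH x hx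
      refine quot hN0 hN (u := X) (v := s') ?_
      linear_combination (-1 : ℤ) * hn + hs'
  · by_contra hlt
    push Not at hlt
    have hc1 := le_abs_self c
    have hT1 := neg_abs_le T
    have hB1 := le_abs_self B
    have hc0 := abs_nonneg c
    have hT0 := abs_nonneg T
    have hB0 : 0 ≤ N * |B| := by positivity
    have hv3 : 3 ≤ v := by linarith
    have hcv : c ≤ v := by linarith
    have hXv : v ≤ X := by nlinarith
    have h1 : N * n ≤ N * |B| := mul_le_mul_of_nonneg_left (hlt.trans hB1) hNpos.le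
    have h2 : v * v ≤ X * X := mul_le_mul hXv hXv (by linarith) (by linarith)
    have h3 : v ≤ v * v := by nlinarith
    have h4 : X ^ 2 + T = N * n := hn
    nlinarith

/-- (1) Let `N` be a product of primes `1 mod 4`, `T` an integer and `H` a finite nonempty set of
integers such that `N x + T` is a square for every `x` in `H`.  Then for EVERY integer `y` there are
infinitely many `n` such that `n + y` and all `n + x`, `x` in `H`, are sums of two squares.

(2) In particular this holds for `H = {N t^2 + 2 s t + c : t ∈ A}`, `A` any finite nonempty set of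
integers, `s` and `c` any integers. -/
theorem result :
    (∀ (N : ℕ) (T : ℤ) (H : Finset ℤ), (∀ p : ℕ, p.Prime → p ∣ N → p % 4 = 1) → H.Nonempty →
      (∀ x ∈ H, ∃ s : ℤ, (N : ℤ) * x + T = s ^ 2) → ∀ y : ℤ,
        {n : ℤ | ∀ x ∈ insert y H, ∃ a b : ℤ, n + x = a ^ 2 + b ^ 2}.Infinite) ∧
    (∀ (N : ℕ) (s c : ℤ) (A : Finset ℤ), (∀ p : ℕ, p.Prime → p ∣ N → p % 4 = 1) → A.Nonempty →
      ∀ y : ℤ,
        {n : ℤ | ∀ x ∈ insert y (A.image fun t : ℤ => (N : ℤ) * t ^ 2 + 2 * s * t + c),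
          ∃ a b : ℤ, n + x = a ^ 2 + b ^ 2}.Infinite) := by
  refine ⟨fun N T H hN hne hH y => crit N T H hN hne hH y, ?_⟩
  intro N s c A hN hA y
  refine crit N (s ^ 2 - N * c) _ hN (hA.image _) ?_ y
  intro x hx
  obtain ⟨t, _, rfl⟩ := Finset.mem_image.1 hx
  exact ⟨N * t + s, by ring⟩

end Pool.Agent.Results.MP_0ea763_nt.OneArbitraryShift
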