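import Pool.Agent.TH740.SQ.Pell

/-!
One suitable translate of a finite set of integers into the set of sums of two squares gives
infinitely many such translates.
-/

set_option autoImplicit false

namespace Pool.Agent.Results.MP_0ea763_nt.OneGivesInfinitelyMany

theorem result (H : Finset ℤ) (n₀ c d p q b : ℤ) (x y : ℤ → ℤ) (hpq : p ≠ 0 ∨ q ≠ 0)
    (hrep : ∀ h ∈ H, n₀ + h = x h ^ 2 + y h ^ 2)
    (hline : ∀ h ∈ H, h ≠ c → h ≠ d → p * x h + q * y h = b)
    (hpos : 0 < (b - (p * x c + q * y c)) * (b - (p * x d + q * y d)))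
    (hns : ¬ IsSquare ((b - (p * x c + q * y c)) * (b - (p * x d + q * y d))))
    (hnd : p * y c - q * x c ≠ 0 ∨ p * y d - q * x d ≠ 0) :
    {n : ℤ | ∀ h ∈ H, ∃ u v : ℤ, n + h = u ^ 2 + v ^ 2}.Infinite :=
  Pool.Agent.TH740.SQ.many H n₀ c d p q b x y hpq hrep hline hpos hns hnd

end Pool.Agent.Results.MP_0ea763_nt.OneGivesInfinitelyMany
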