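import Mathlib

namespace Pool.Agent.Results.MP_0ea763_nt.QuadruplesModEight

theorem isCoprime_of_primes (x y : ℤ)
    (h : ∀ q : ℕ, q.Prime → (q : ℤ) ∣ x → (q : ℤ) ∣ y → False) : IsCoprime x y := by
  rw [Int.isCoprime_iff_gcd_eq_one]
  by_contra hne
  obtain ⟨q, hq, hd⟩ := Nat.exists_prime_and_dvd hne
  have hd' : (q : ℤ) ∣ ((Int.gcd x y : ℕ) : ℤ) := Int.natCast_dvd_natCast.mpr hd
  exact h q hq (hd'.trans (Int.gcd_dvd_left _ _)) (hd'.trans (Int.gcd_dvd_right _ _))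

def Good (n : ℤ) : Prop := 0 < n ∧ ∀ p : ℕ, p.Prime → (p : ℤ) ∣ n → p % 4 = 1

theorem good_of (n x y : ℤ) (h : n = x ^ 2 + y ^ 2) (hc : IsCoprime x y) (ho : Odd n) : Good n := by
  have hpos : 0 < n := by
    rcases eq_or_ne x 0 with hx | hx
    · rcases eq_or_ne y 0 with hy | hy
      · subst hx; subst hy
        simp at h
        subst h
        simp at ho
      · have := sq_nonneg x
        have : 0 < y ^ 2 := by positivity
        linarith [sq_nonneg x]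
    · have : 0 < x ^ 2 := by positivity
      linarith [sq_nonneg y]
  refine ⟨hpos, fun p hp hd => ?_⟩
  have hs := ZMod.isSquare_neg_one_of_eq_sq_add_sq_of_isCoprime h hc
  have hd' : p ∣ n.natAbs := Int.natCast_dvd.mp hd
  have hne : n.natAbs ≠ 0 := by omega
  have h3 := Nat.mod_four_ne_three_of_mem_primeFactors_of_isSquare_neg_one
    (Nat.mem_primeFactors.mpr ⟨hp, hd', hne⟩) hs
  have h2 : p ≠ 2 := by
    rintro rfl
    obtain ⟨k, hk⟩ := ho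
    omega
  have hodd := hp.eq_two_or_odd
  omega

theorem Good.mul {m n : ℤ} (hm : Good m) (hn : Good n) : Good (m * n) := by
  refine ⟨mul_pos hm.1 hn.1, fun p hp hd => ?_⟩
  rcases (Nat.prime_iff_prime_int.mp hp).dvd_or_dvd hd with h | h
  · exact hm.2 p hp h
  · exact hn.2 p hp h

theorem Good.odd {n : ℤ} (hn : Good n) : Odd n := by
  rw [← Int.not_even_iff_odd]
  intro he
  have := hn.2 2 Nat.prime_two (by exact_mod_cast he.two_dvd)
  omega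

theorem sq_nat (n : ℕ) : (∀ p : ℕ, p.Prime → p ∣ n → p % 4 = 1) → n ≠ 0 →
    IsSquare (-1 : ZMod n) := by
  induction n using Nat.recOnPosPrimePosCoprime with
  | zero => intro _ h; exact absurd rfl h
  | one => intro _ _; exact ⟨0, Subsingleton.elim _ _⟩
  | prime_pow p n hp hn =>
    intro h _
    have h1 : p % 4 = 1 := h p hp (dvd_pow_self p hn.ne')
    have := Fact.mk hp
    obtain ⟨k, rfl⟩ : ∃ k, n = k + 1 := ⟨n - 1, by omega⟩
    obtain ⟨a, ha⟩ := (ZMod.exists_sq_eq_neg_one_iff (p := p)).2 (by omega)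
    have hd : ((p : ℕ) : ℤ) ∣ (a.val : ℤ) ^ 2 - (-1) := by
      rw [← ZMod.intCast_zmod_eq_zero_iff_dvd]
      push_cast
      rw [ZMod.natCast_zmod_val]
      rw [sq, ← ha]; ring
    have := dvd_sub_pow_of_dvd_sub hd k
    have hodd : Odd (p ^ k) := (hp.odd_of_ne_two (by omega)).pow
    rw [hodd.neg_one_pow, ← pow_mul, mul_comm 2, pow_mul] at this
    refine ⟨((((a.val : ℤ) ^ p ^ k : ℤ)) : ZMod (p ^ (k + 1))), ?_⟩
    have h2 : ((((a.val : ℤ) ^ p ^ k) ^ 2 - (-1) : ℤ) : ZMod (p ^ (k + 1))) = 0 := by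
      rw [ZMod.intCast_zmod_eq_zero_iff_dvd]
      exact_mod_cast this
    push_cast at h2 ⊢
    linear_combination -h2
  | coprime a b ha hb hab iha ihb =>
    intro h hne
    exact ZMod.isSquare_neg_one_mul hab
      (iha (fun p hp hd => h p hp (hd.mul_right b)) (by omega))
      (ihb (fun p hp hd => h p hp (hd.mul_left a)) (by omega))

theorem Good.root {n : ℤ} (hn : Good n) : ∃ i : ℤ, n ∣ i ^ 2 + 1 := by
  obtain ⟨m, rfl⟩ : ∃ m : ℕ, n = m := ⟨n.toNat, (Int.toNat_of_nonneg hn.1.le).symm⟩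
  have h1 : IsSquare (-1 : ZMod m) :=
    sq_nat m (fun p hp hd => hn.2 p hp (by exact_mod_cast hd)) (by
      have := hn.1
      rintro rfl
      simp at this)
  obtain ⟨a, ha⟩ := h1
  have : NeZero m := ⟨by have := hn.1; rintro rfl; simp at this⟩
  refine ⟨(a.val : ℤ), ?_⟩
  rw [← ZMod.intCast_zmod_eq_zero_iff_dvd]
  push_cast
  rw [ZMod.natCast_zmod_val, sq, ← ha]; ring

/-- exact division inside the sums of two squares -/
theorem div_S (N m u v : ℤ) (hN : 0 < N) (hS : ∃ x y : ℤ, N = x ^ 2 + y ^ 2)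
    (h : N * m = u ^ 2 + v ^ 2) : ∃ x y : ℤ, m = x ^ 2 + y ^ 2 := by
  obtain ⟨x, y, hxy⟩ := hS
  have hm : 0 ≤ m := by
    by_contra hneg
    push Not at hneg
    nlinarith [sq_nonneg u, sq_nonneg v, mul_pos hN (neg_pos.mpr hneg)]
  obtain ⟨a, rfl⟩ : ∃ a : ℕ, N = a := ⟨N.toNat, (Int.toNat_of_nonneg hN.le).symm⟩
  obtain ⟨b, rfl⟩ : ∃ b : ℕ, m = b := ⟨m.toNat, (Int.toNat_of_nonneg hm).symm⟩
  have hA : ∃ x y : ℕ, a = x ^ 2 + y ^ 2 := ⟨x.natAbs, y.natAbs, by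
    zify; rw [sq_abs, sq_abs]; exact hxy⟩
  have hAB : ∃ x y : ℕ, a * b = x ^ 2 + y ^ 2 := ⟨u.natAbs, v.natAbs, by
    zify; rw [sq_abs, sq_abs]; exact h⟩
  have ha0 : a ≠ 0 := by rintro rfl; simp at hN
  have hB : ∃ x y : ℕ, b = x ^ 2 + y ^ 2 := by
    rcases eq_or_ne b 0 with rfl | hb0
    · exact ⟨0, 0, rfl⟩
    rw [Nat.eq_sq_add_sq_iff] at hA hAB ⊢
    intro q hq h3
    have hqp := Nat.prime_of_mem_primeFactors hq
    have := Fact.mk hqp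
    have h1 := hAB q (Nat.mem_primeFactors.mpr
      ⟨hqp, (Nat.dvd_of_mem_primeFactors hq).mul_left a, mul_ne_zero ha0 hb0⟩) h3
    rw [padicValNat.mul ha0 hb0] at h1
    by_cases hqa : q ∣ a
    · have h2 := hA q (Nat.mem_primeFactors.mpr ⟨hqp, hqa, ha0⟩) h3
      exact (Nat.even_add.mp h1).mp h2
    · rw [padicValNat.eq_zero_of_not_dvd hqa, zero_add] at h1
      exact h1
  obtain ⟨x', y', hb⟩ := hB
  exact ⟨x', y', by exact_mod_cast hb⟩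


theorem exists_j (α b : ℤ)
    (h3 : ¬ ((3 : ℤ) ∣ 4 * α ^ 2 - 1 ∧ (3 : ℤ) ∣ 2 * (α ^ 2 - α + b) + 1)) :
    ∃ j : ℤ, Good j ∧ Good (j + 8 * α) ∧ Good (j + 4 * b) := by
  classical
  obtain ⟨c, hc⟩ : ∃ c : ℤ, c = 2 * (α ^ 2 - α + b) + 1 := ⟨_, rfl⟩
  obtain ⟨M, hM⟩ : ∃ M : ℤ, M = 4 * α ^ 2 - 1 := ⟨_, rfl⟩
  rw [← hc, ← hM] at h3
  obtain ⟨B, hB⟩ : ∃ B : ℤ, B = c * (c - 1) := ⟨_, rfl⟩
  obtain ⟨A, hA⟩ : ∃ A : ℕ, A = ∏ q ∈ M.natAbs.primeFactors.filter (fun q => ¬ q ∣ B.natAbs), q :=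
    ⟨_, rfl⟩
  have hM0 : M ≠ 0 := by
    intro h
    have : 4 * α ^ 2 = 1 := by linarith
    omega
  have hAB : Nat.Coprime A B.natAbs := by
    rw [hA]
    refine Nat.Coprime.prod_left (fun q hq => ?_)
    rw [Finset.mem_filter] at hq
    exact ((Nat.prime_of_mem_primeFactors hq.1).coprime_iff_not_dvd).mpr hq.2
  have hAq : ∀ q : ℕ, q.Prime → (q : ℤ) ∣ M → ¬ (q : ℤ) ∣ B → q ∣ A := by
    intro q hq h1 h2
    rw [hA]
    refine Finset.dvd_prod_of_mem _ ?_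
    rw [Finset.mem_filter]
    exact ⟨Nat.mem_primeFactors.mpr ⟨hq, Int.natCast_dvd.mp h1, by omega⟩,
      fun h => h2 (Int.natCast_dvd.mpr h)⟩
  obtain ⟨r, hr⟩ : ∃ r : ℕ, r = A ^ (Nat.totient B.natAbs) := ⟨_, rfl⟩
  have hr1 : ∀ q : ℕ, (q : ℤ) ∣ B → (q : ℤ) ∣ (r : ℤ) - 1 := by
    intro q hq
    have h1 := Nat.ModEq.pow_totient hAB
    rw [← hr] at h1
    have h2 := (Nat.modEq_iff_dvd.mp h1.symm)
    push_cast at h2
    exact (Int.natCast_dvd.mpr (by rw [Int.natAbs_abs]; exact Int.natCast_dvd.mp hq) :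
      (q : ℤ) ∣ |B|).trans h2
  have hr0 : ∀ q : ℕ, q.Prime → (q : ℤ) ∣ M → ¬ (q : ℤ) ∣ B → (q : ℤ) ∣ (r : ℤ) := by
    intro q hq h1 h2
    have h4 := hAq q hq h1 h2
    have h5 : B.natAbs ≠ 0 := by
      intro h
      apply h2
      rw [Int.natAbs_eq_zero.mp h]
      exact dvd_zero _
    have h6 : Nat.totient B.natAbs ≠ 0 := by
      have := Nat.totient_pos.mpr (Nat.pos_of_ne_zero h5)
      omega
    rw [hr]
    exact_mod_cast h4.trans (dvd_pow_self A h6)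
  have hrB : ∀ q : ℕ, q.Prime → (q : ℤ) ∣ (r : ℤ) → ¬ (q : ℤ) ∣ B := by
    intro q hq h1 h2
    have h4 := dvd_sub h1 (hr1 q h2)
    have h5 : (q : ℤ) ∣ 1 := by
      have : (r : ℤ) - ((r : ℤ) - 1) = 1 := by ring
      rwa [this] at h4
    have h6 : q ∣ 1 := by exact_mod_cast h5
    exact hq.one_lt.ne' (Nat.dvd_one.mp h6)
  obtain ⟨x, hx⟩ : ∃ x : ℤ, x = 2 * (r : ℤ) ^ 2 - c + 1 := ⟨_, rfl⟩
  have hxM : IsCoprime x M := by
    refine isCoprime_of_primes x M (fun q hq h1 h2 => ?_)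
    by_cases hqB : (q : ℤ) ∣ B
    · have h4 := hr1 q hqB
      have h5 : (q : ℤ) ∣ 3 - c := by
        have : 3 - c = x - 2 * ((r : ℤ) + 1) * ((r : ℤ) - 1) := by rw [hx]; ring
        rw [this]
        exact dvd_sub h1 (h4.mul_left _)
      rw [hB] at hqB
      rcases (Nat.prime_iff_prime_int.mp hq).dvd_or_dvd hqB with h6 | h6
      · have h7 : (q : ℤ) ∣ 3 := by
          have := dvd_add h5 h6
          simpa using this
        have h8 : q ∣ 3 := by exact_mod_cast h7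
        have h9 : q = 3 := (Nat.prime_dvd_prime_iff_eq hq Nat.prime_three).mp h8
        subst h9
        exact h3 ⟨by exact_mod_cast h2, by exact_mod_cast h6⟩
      · have h7 : (q : ℤ) ∣ 2 := by
          have := dvd_add h5 h6
          have h10 : 3 - c + (c - 1) = 2 := by ring
          rwa [h10] at this
        have h8 : q ∣ 2 := by exact_mod_cast h7
        have h9 : q = 2 := (Nat.prime_dvd_prime_iff_eq hq Nat.prime_two).mp h8
        subst h9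
        rw [hM] at h2
        push_cast at h2
        omega
    · have h4 := hr0 q hq h2 hqB
      have h5 : (q : ℤ) ∣ c - 1 := by
        have : c - 1 = 2 * (r : ℤ) * (r : ℤ) - x := by rw [hx]; ring
        rw [this]
        exact dvd_sub (h4.mul_left _) h1
      exact hqB (by rw [hB]; exact h5.mul_left _)
  have hxr : IsCoprime (x - 1) (2 * (r : ℤ)) := by
    refine isCoprime_of_primes _ _ (fun q hq h1 h2 => ?_)
    have h5 : (q : ℤ) ∣ c := by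
      have : c = (2 * (r : ℤ)) * (r : ℤ) - (x - 1) := by rw [hx]; ring
      rw [this]
      exact dvd_sub (h2.mul_right _) h1
    rcases (Nat.prime_iff_prime_int.mp hq).dvd_or_dvd h2 with h6 | h6
    · have h8 : q ∣ 2 := by exact_mod_cast h6
      have h9 : q = 2 := (Nat.prime_dvd_prime_iff_eq hq Nat.prime_two).mp h8
      subst h9
      push_cast at h5
      omega
    · exact hrB q hq h6 (by rw [hB]; exact h5.mul_right _)
  have hxe : ∃ k : ℤ, x = 2 * k := ⟨(r : ℤ) ^ 2 - (α ^ 2 - α + b), by rw [hx, hc]; ring⟩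
  obtain ⟨k, hk⟩ := hxe
  have hMf : M = (2 * α - 1) * (2 * α + 1) := by rw [hM]; ring
  rw [hMf] at hxM
  refine ⟨x ^ 2 + (2 * α - 1) ^ 2, ?_, ?_, ?_⟩
  · refine good_of _ x (2 * α - 1) rfl hxM.of_mul_right_left ?_
    exact ⟨2 * k ^ 2 + 2 * α ^ 2 - 2 * α, by rw [hk]; ring⟩
  · refine good_of _ x (2 * α + 1) (by ring) hxM.of_mul_right_right ?_
    exact ⟨2 * k ^ 2 + 2 * α ^ 2 + 2 * α, by rw [hk]; ring⟩
  · refine good_of _ (x - 1) (2 * (r : ℤ)) ?_ hxr ?_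
    · have : b = (c - 1) / 2 - α ^ 2 + α := by omega
      have hb : 2 * b = c - 1 - 2 * α ^ 2 + 2 * α := by rw [hc]; ring
      have hc' : c = 2 * (r : ℤ) ^ 2 + 1 - x := by rw [hx]; ring
      linear_combination 2 * hb + 2 * hc'
    · exact ⟨2 * k ^ 2 + 2 * α ^ 2 - 2 * α + 2 * b, by rw [hk]; ring⟩


theorem finish (H α b g j i X u v s : ℤ) (K : ℤ)
    (hN1 : Good (j * (j + 8 * α) * (j + 4 * b)))
    (hi : j * (j + 8 * α) * (j + 4 * b) ∣ i ^ 2 + 1) (hs : s = j ^ 2 - 32 * α * b)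
    (hso : Odd s) (hX : Odd X)
    (hC : X ^ 2 + (s ^ 2 + 2 * (j * (j + 8 * α) * (j + 4 * b)) * (g - H)) = u ^ 2 + v ^ 2)
    (hd : j * (j + 8 * α) * (j + 4 * b) ∣ X - i * s)
    (hK : 2 * (j * (j + 8 * α) * (j + 4 * b)) * (|K| + |H| + 1) ≤ X) :
    ∃ n : ℤ, K < n ∧ (∃ x y : ℤ, n + H = x ^ 2 + y ^ 2) ∧
      (∃ x y : ℤ, n + (H + 16 * α) = x ^ 2 + y ^ 2) ∧
      (∃ x y : ℤ, n + (H + 8 * b) = x ^ 2 + y ^ 2) ∧ (∃ x y : ℤ, n + g = x ^ 2 + y ^ 2) := by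
  obtain ⟨N, hN⟩ : ∃ N : ℤ, N = j * (j + 8 * α) * (j + 4 * b) := ⟨_, rfl⟩
  have hodd := hN1.odd
  rw [← hN] at hN1 hi hC hd hK hodd
  have hNpos : 0 < N := hN1.1
  have h1 : N ∣ X ^ 2 + s ^ 2 := by
    have : X ^ 2 + s ^ 2 = (X - i * s) * (X + i * s) + s ^ 2 * (i ^ 2 + 1) := by ring
    rw [this]
    exact dvd_add (hd.mul_right _) (hi.mul_left _)
  have h2 : (2 : ℤ) ∣ X ^ 2 + s ^ 2 := by
    obtain ⟨p, rfl⟩ := hX
    obtain ⟨q, hq⟩ := hso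
    rw [hq]
    exact ⟨2 * p ^ 2 + 2 * p + 2 * q ^ 2 + 2 * q + 1, by ring⟩
  have hcop : IsCoprime (2 : ℤ) N := by
    obtain ⟨k, hk⟩ := hodd
    exact ⟨-k, 1, by rw [hk]; ring⟩
  obtain ⟨m, hm⟩ := hcop.mul_dvd h2 h1
  have hS : ∃ x y : ℤ, 2 * N = x ^ 2 + y ^ 2 := by
    obtain ⟨a, rfl⟩ : ∃ a : ℕ, N = a := ⟨N.toNat, (Int.toNat_of_nonneg hNpos.le).symm⟩
    have h5 : IsSquare (-1 : ZMod a) :=
      sq_nat a (fun p hp hd => hN1.2 p hp (by exact_mod_cast hd)) (by omega)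
    obtain ⟨x, y, hxy⟩ := Nat.eq_sq_add_sq_of_isSquare_mod_neg_one h5
    refine ⟨(x : ℤ) + y, (x : ℤ) - y, ?_⟩
    rw [hxy]; push_cast; ring
  have hpos2 : 0 < 2 * N := by linarith
  refine ⟨m - H, ?_, ?_, ?_, ?_, ?_⟩
  · by_contra hcon
    push Not at hcon
    have hb1 : m ≤ |K| + |H| := by
      have := le_abs_self K
      have := le_abs_self H
      linarith
    have hb2 : 2 * N * m ≤ 2 * N * (|K| + |H|) := mul_le_mul_of_nonneg_left hb1 hpos2.le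
    have hb4 : 0 ≤ 2 * N * (|K| + |H|) := by positivity
    have hb5 : 0 < X := by nlinarith
    have hb3 : X ≤ X ^ 2 := by nlinarith
    nlinarith [sq_nonneg s]
  · refine div_S (2 * N) _ X s hpos2 hS ?_
    rw [hm]; ring
  · refine div_S (2 * N) _ X (j ^ 2 + 16 * α * j + 32 * α * b) hpos2 hS ?_
    have : 2 * N * (m - H + (H + 16 * α)) = 2 * N * m + 32 * α * N := by ring
    rw [this, ← hm, hs, hN]; ring
  · refine div_S (2 * N) _ X (j ^ 2 + 8 * b * j + 32 * α * b) hpos2 hS ?_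
    have : 2 * N * (m - H + (H + 8 * b)) = 2 * N * m + 16 * b * N := by ring
    rw [this, ← hm, hs, hN]; ring
  · refine div_S (2 * N) _ u v hpos2 hS ?_
    rw [← hC]
    have : 2 * N * (m - H + g) = 2 * N * m + 2 * N * (g - H) := by ring
    rw [this, ← hm]; ring

theorem core (H α b g : ℤ)
    (h3 : ¬ ((3 : ℤ) ∣ 4 * α ^ 2 - 1 ∧ (3 : ℤ) ∣ 2 * (α ^ 2 - α + b) + 1))
    (hg : (g - H) % 4 ≠ 2) (K : ℤ) :
    ∃ n : ℤ, K < n ∧ (∃ x y : ℤ, n + H = x ^ 2 + y ^ 2) ∧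
      (∃ x y : ℤ, n + (H + 16 * α) = x ^ 2 + y ^ 2) ∧
      (∃ x y : ℤ, n + (H + 8 * b) = x ^ 2 + y ^ 2) ∧ (∃ x y : ℤ, n + g = x ^ 2 + y ^ 2) := by
  obtain ⟨j, g1, g2, g3⟩ := exists_j α b h3
  have hN1 := (g1.mul g2).mul g3
  obtain ⟨N, hN⟩ : ∃ N : ℤ, N = j * (j + 8 * α) * (j + 4 * b) := ⟨_, rfl⟩
  have hodd := hN1.odd
  have hjo := g1.odd
  have hpos := hN1.1
  obtain ⟨i, hi, hio⟩ : ∃ i : ℤ, j * (j + 8 * α) * (j + 4 * b) ∣ i ^ 2 + 1 ∧ Odd i := by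
    obtain ⟨i, hi⟩ := hN1.root
    rcases Int.even_or_odd i with he | ho
    · refine ⟨i + j * (j + 8 * α) * (j + 4 * b), ?_, he.add_odd hodd⟩
      have : (i + j * (j + 8 * α) * (j + 4 * b)) ^ 2 + 1 = (i ^ 2 + 1) +
        (j * (j + 8 * α) * (j + 4 * b)) * (2 * i + j * (j + 8 * α) * (j + 4 * b)) := by ring
      rw [this]
      exact dvd_add hi (dvd_mul_right _ _)
    · exact ⟨i, hi, ho⟩
  obtain ⟨s, hs⟩ : ∃ s : ℤ, s = j ^ 2 - 32 * α * b := ⟨_, rfl⟩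
  have hso : Odd s := by
    obtain ⟨k, hk⟩ := hjo
    exact ⟨2 * k ^ 2 + 2 * k - 16 * α * b, by rw [hs, hk]; ring⟩
  obtain ⟨C, hC⟩ : ∃ C : ℤ, C = s ^ 2 + 2 * N * (g - H) := ⟨_, rfl⟩
  obtain ⟨T, hT⟩ : ∃ T : ℤ, T = 2 * N * (|K| + |H| + 1) := ⟨_, rfl⟩
  have hNpos : 0 < N := by rw [hN]; exact hpos
  have hTpos : 0 < T := by rw [hT]; positivity
  obtain ⟨m, hm⟩ : ∃ m : ℤ, m = |s| + 2 * |i| + |C| + 4 * T := ⟨_, rfl⟩
  have hcop2 : IsCoprime N (2 : ℤ) := by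
    rw [← hN] at hodd
    obtain ⟨k, hk⟩ := hodd
    exact ⟨1, -k, by rw [hk]; ring⟩
  have hcop4 : IsCoprime N (4 : ℤ) := by
    have := hcop2.mul_right hcop2
    norm_num at this
    exact this
  have hiN : N ∣ i ^ 2 + 1 := by rw [hN]; exact hi
  have hNo : Odd N := by rw [hN]; exact hodd
  have hm0 : 0 < m := by
    rw [hm]
    have := abs_nonneg s
    have := abs_nonneg i
    have := abs_nonneg C
    linarith
  have hms : -|s| ≤ s := neg_abs_le s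
  have hmi : -|i| ≤ i := neg_abs_le i
  have hCC : C ≤ |C| := le_abs_self C
  have habs := abs_nonneg s
  have habi := abs_nonneg i
  have habC := abs_nonneg C
  have hNm : m ≤ N * m := by nlinarith
  rcases Int.even_or_odd (g - H) with he | ho
  · -- g - H divisible by four
    obtain ⟨d, hd⟩ : ∃ d, g - H = 4 * d := ⟨(g - H) / 4, by
      obtain ⟨r, hr⟩ := he
      omega⟩
    obtain ⟨v, hv⟩ : ∃ v : ℤ, v = s + 2 * i + 2 * N * m := ⟨_, rfl⟩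
    obtain ⟨w, hw⟩ : ∃ w : ℤ, v ^ 2 - C = 8 * w := by
      have h1 : Even ((i + N * m) * (i + N * m + s)) := by
        rcases Int.even_or_odd (i + N * m) with h | h
        · exact h.mul_right _
        · exact (h.add_odd hso).mul_left _
      obtain ⟨r, hr⟩ := h1
      refine ⟨r - N * d, ?_⟩
      rw [hC, hd, hv]
      linear_combination 4 * hr
    have hvm : m ≤ v := by rw [hv]; nlinarith
    have hv2 : v ≤ v ^ 2 := by nlinarith
    refine finish H α b g j i (1 + 2 * w) (2 * w - 1) v s K hN1 hi hs hso ⟨w, by ring⟩ ?_ ?_ ?_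
    · rw [← hN, ← hC]
      linear_combination -hw
    · rw [← hN]
      refine hcop4.dvd_of_dvd_mul_left ?_
      have : 4 * (1 + 2 * w - i * s) = 4 * (i ^ 2 + 1) +
          N * (8 * i * m + 4 * N * m ^ 2 + 4 * s * m - 2 * (g - H)) := by
        rw [hC, hv] at hw
        linear_combination -hw
      rw [this]
      exact dvd_add (hiN.mul_left _) (dvd_mul_right _ _)
    · rw [← hN, ← hT]
      nlinarith
  · obtain ⟨v, hv⟩ : ∃ v : ℤ, v = s + i + 2 * N * m := ⟨_, rfl⟩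
    obtain ⟨w, hw⟩ : ∃ w : ℤ, 1 + v ^ 2 - C = 4 * w + 2 := by
      obtain ⟨p, hp⟩ := hso
      obtain ⟨q, hq⟩ := hio
      obtain ⟨r, hr⟩ := ho
      obtain ⟨k, hk⟩ := hNo
      refine ⟨(p + q + 1 + N * m) ^ 2 - p ^ 2 - p - (2 * k * r + k + r) - 1, ?_⟩
      rw [hC, hv, hr]
      have e1 : s + i + 2 * N * m = 2 * (p + q + 1 + N * m) := by rw [hp, hq]; ring
      rw [e1, hp, hk]
      ring
    have hvm : m ≤ v := by rw [hv]; nlinarith
    have hv2 : v ≤ v ^ 2 := by nlinarith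
    refine finish H α b g j i (2 * w + 1) (2 * w) v s K hN1 hi hs hso ⟨w, by ring⟩ ?_ ?_ ?_
    · rw [← hN, ← hC]
      linear_combination -hw
    · rw [← hN]
      refine hcop2.dvd_of_dvd_mul_left ?_
      have : 2 * (2 * w + 1 - i * s) = (i ^ 2 + 1) +
          N * (4 * i * m + 4 * N * m ^ 2 + 4 * s * m - 2 * (g - H)) := by
        rw [hC, hv] at hw
        linear_combination -hw
      rw [this]
      exact dvd_add hiN (dvd_mul_right _ _)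
    · rw [← hN, ← hT]
      nlinarith

theorem main4 (A B C G : ℤ) (hAB : A ≡ B [ZMOD 16]) (hAC : A ≡ C [ZMOD 8])
    (t : A ≡ B [ZMOD 3] ∨ A ≡ C [ZMOD 3] ∨ B ≡ C [ZMOD 3]) (q : (G - A) % 4 ≠ 2) (K : ℤ) :
    ∃ n : ℤ, K < n ∧ (∃ x y : ℤ, n + A = x ^ 2 + y ^ 2) ∧
      (∃ x y : ℤ, n + B = x ^ 2 + y ^ 2) ∧
      (∃ x y : ℤ, n + C = x ^ 2 + y ^ 2) ∧ (∃ x y : ℤ, n + G = x ^ 2 + y ^ 2) := by
  unfold Int.ModEq at hAB hAC t
  obtain ⟨α, hα⟩ : ∃ α : ℤ, B = A + 16 * α := ⟨(B - A) / 16, by omega⟩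
  obtain ⟨b, hb⟩ : ∃ b : ℤ, C = A + 8 * b := ⟨(C - A) / 8, by omega⟩
  rw [hα, hb]
  refine core A α b G ?_ q K
  rintro ⟨d1, d2⟩
  have hz : (α ^ 2) % 3 = ((α % 3) * (α % 3)) % 3 := by rw [sq, Int.mul_emod]
  have h3 : α % 3 = 0 ∨ α % 3 = 1 ∨ α % 3 = 2 := by omega
  rcases h3 with h | h | h
  · rw [h] at hz
    omega
  · rw [h] at hz
    omega
  · rw [h] at hz
    omega

theorem result (h₁ h₂ h₃ h₄ : ℤ) (h12 : h₁ ≡ h₂ [ZMOD 8]) (h13 : h₁ ≡ h₃ [ZMOD 8])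
    (t : h₁ ≡ h₂ [ZMOD 3] ∨ h₁ ≡ h₃ [ZMOD 3] ∨ h₂ ≡ h₃ [ZMOD 3])
    (q : ¬ h₄ ≡ h₁ + 2 [ZMOD 4]) :
    {n : ℤ | ∀ h ∈ ({h₁, h₂, h₃, h₄} : Set ℤ), ∃ x y : ℤ, n + h = x ^ 2 + y ^ 2}.Infinite := by
  have key : ∀ K : ℤ, ∃ n : ℤ, K < n ∧ (∃ x y : ℤ, n + h₁ = x ^ 2 + y ^ 2) ∧
      (∃ x y : ℤ, n + h₂ = x ^ 2 + y ^ 2) ∧
      (∃ x y : ℤ, n + h₃ = x ^ 2 + y ^ 2) ∧ (∃ x y : ℤ, n + h₄ = x ^ 2 + y ^ 2) := by
    intro K
    have hcases : h₁ ≡ h₂ [ZMOD 16] ∨ h₁ ≡ h₃ [ZMOD 16] ∨ h₂ ≡ h₃ [ZMOD 16] := by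
      unfold Int.ModEq at h12 h13 ⊢
      omega
    have q1 : (h₄ - h₁) % 4 ≠ 2 := by
      unfold Int.ModEq at q
      omega
    have q2 : (h₄ - h₂) % 4 ≠ 2 := by
      unfold Int.ModEq at h12
      omega
    rcases hcases with h | h | h
    · obtain ⟨n, h0, h1, h2, h3, h4⟩ := main4 h₁ h₂ h₃ h₄ h h13 t q1 K
      exact ⟨n, h0, h1, h2, h3, h4⟩
    · obtain ⟨n, h0, h1, h2, h3, h4⟩ := main4 h₁ h₃ h₂ h₄ h h12 (by
        rcases t with t | t | t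
        · exact Or.inr (Or.inl t)
        · exact Or.inl t
        · exact Or.inr (Or.inr t.symm)) q1 K
      exact ⟨n, h0, h1, h3, h2, h4⟩
    · obtain ⟨n, h0, h1, h2, h3, h4⟩ := main4 h₂ h₃ h₁ h₄ h h12.symm (by
        rcases t with t | t | t
        · exact Or.inr (Or.inl t.symm)
        · exact Or.inr (Or.inr t.symm)
        · exact Or.inl t) q2 K
      exact ⟨n, h0, h3, h1, h2, h4⟩
  refine Set.infinite_of_forall_exists_gt (fun K => ?_)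
  obtain ⟨n, h0, h1, h2, h3, h4⟩ := key K
  refine ⟨n, ?_, h0⟩
  intro h hh
  simp only [Set.mem_insert_iff, Set.mem_singleton_iff] at hh
  rcases hh with rfl | rfl | rfl | rfl
  · exact h1
  · exact h2
  · exact h3
  · exact h4

end Pool.Agent.Results.MP_0ea763_nt.QuadruplesModEight
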